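import Mathlib
import Pool.Agent.H812.Tm.Spec1

/-!
# The bracket identities `SBr`
-/

set_option autoImplicit false

open Real Filter Topology
open scoped ContDiff

namespace Pool.Agent.H200.TM

open Pool.Agent.W811.Stu Pool.Agent.H812.Tm

lemma isOpen_U : IsOpen U := isOpen_lt (by fun_prop) continuous_const

/-- the brackets of the components of a point depending on `v` are proportional to the gradient -/
structure Gd (q : ℝ × ℝ → P3) (v : ℝ × ℝ) (s : ℝ) : Prop where
  dfz : DifferentiableAt ℝ (fun w => (q w).z) v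
  dfy : DifferentiableAt ℝ (fun w => (q w).y) v
  dfx : DifferentiableAt ℝ (fun w => (q w).x) v
  jX : jac (fun w => (q w).z) (fun w => (q w).y) v * √(1 - v.1 ^ 2) = s * gX (q v)
  jA : jac (fun w => (q w).y) (fun w => (q w).x) v * √(1 - v.1 ^ 2) = s * gA (q v)
  jB : jac (fun w => (q w).x) (fun w => (q w).z) v * √(1 - v.1 ^ 2) = s * gB (q v)

lemma fd_R {z y x : ℝ × ℝ → ℝ} {v : ℝ × ℝ} (hz : DifferentiableAt ℝ z v)
    (hy : DifferentiableAt ℝ y v) (hx : DifferentiableAt ℝ x v) (e : ℝ × ℝ) :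
    fderiv ℝ (fun w => 2 * x w * y w - z w) v e =
      2 * x v * fderiv ℝ y v e + 2 * y v * fderiv ℝ x v e - fderiv ℝ z v e := by
  have h : fderiv ℝ (fun w => 2 * x w * y w - z w) v =
    (2 * x v) • fderiv ℝ y v + y v • (2:ℝ) • fderiv ℝ x v - fderiv ℝ z v :=
    (((hx.hasFDerivAt.const_mul 2).mul hy.hasFDerivAt).sub hz.hasFDerivAt).fderiv
  rw [h]
  simp only [_root_.sub_apply, _root_.add_apply, _root_.smul_apply, smul_eq_mul]
  ring

lemma Gd.R {q : ℝ × ℝ → P3} {v : ℝ × ℝ} {s : ℝ} (h : Gd q v s) :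
    Gd (fun w => stepR (q w)) v s := by
  obtain ⟨dfz, dfy, dfx, jX, jA, jB⟩ := h
  have hx' : DifferentiableAt ℝ (fun w => 2 * (q w).x * (q w).y - (q w).z) v :=
    ((dfx.const_mul 2).mul dfy).sub dfz
  have e1 := fd_R dfz dfy dfx
  refine ⟨dfx, dfy, hx', ?_, ?_, ?_⟩
  · show jac (fun w => (q w).x) (fun w => (q w).y) v * _ = s * gX (stepR (q v))
    have : gX (stepR (q v)) = - gA (q v) := by simp only [gX, gA, stepR]; ring
    rw [this]
    simp only [jac] at *
    linear_combination -jA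
  · show jac (fun w => (q w).y) (fun w => 2 * (q w).x * (q w).y - (q w).z) v * _ =
      s * gA (stepR (q v))
    have : gA (stepR (q v)) = 2 * (q v).y * gA (q v) + gX (q v) := by
      simp only [gX, gA, stepR]; ring
    rw [this]
    simp only [jac, dz, dt, e1] at *
    linear_combination (2 * (q v).y) * jA + jX
  · show jac (fun w => 2 * (q w).x * (q w).y - (q w).z) (fun w => (q w).x) v * _ =
      s * gB (stepR (q v))
    have : gB (stepR (q v)) = 2 * (q v).x * gA (q v) + gB (q v) := by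
      simp only [gB, gA, stepR]; ring
    rw [this]
    simp only [jac, dz, dt, e1] at *
    linear_combination (2 * (q v).x) * jA + jB

lemma Gd.S {q : ℝ × ℝ → P3} {v : ℝ × ℝ} {s : ℝ} (h : Gd q v s) :
    Gd (fun w => stepS (q w)) v (-s) := by
  obtain ⟨dfz, dfy, dfx, jX, jA, jB⟩ := h
  refine ⟨dfy, dfz, dfx, ?_, ?_, ?_⟩
  · show jac (fun w => (q w).y) (fun w => (q w).z) v * _ = -s * gX (stepS (q v))
    have : gX (stepS (q v)) = gX (q v) := by simp only [gX, stepS]; ring
    rw [this]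
    simp only [jac] at *
    linear_combination -jX
  · show jac (fun w => (q w).z) (fun w => (q w).x) v * _ = -s * gA (stepS (q v))
    have : gA (stepS (q v)) = gB (q v) := by simp only [gB, gA, stepS]
    rw [this]
    simp only [jac] at *
    linear_combination -jB
  · show jac (fun w => (q w).x) (fun w => (q w).y) v * _ = -s * gB (stepS (q v))
    have : gB (stepS (q v)) = gA (q v) := by simp only [gB, gA, stepS]
    rw [this]
    simp only [jac] at *
    linear_combination -jA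

lemma Gd.iter {q : ℝ × ℝ → P3} {v : ℝ × ℝ} {s : ℝ} (h : Gd q v s) (k : ℕ) :
    Gd (fun w => stepR^[k] (q w)) v s := by
  induction k with
  | zero => exact h
  | succ k ih =>
    have h2 := ih.R
    have e : (fun s => stepR^[k + 1] (q s)) = fun s => stepR (stepR^[k] (q s)) := by
      funext s; rw [Function.iterate_succ_apply']
    rw [e]
    exact h2

lemma Gd.orb {q : ℝ × ℝ → P3} {v : ℝ × ℝ} {s : ℝ} (hs : s ^ 2 = 1) (h : Gd q v s)
    (d : ℕ → ℕ) (m : ℕ) : ∃ s' : ℝ, s' ^ 2 = 1 ∧ Gd (fun w => orb d (q w) m) v s' := by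
  induction m with
  | zero => exact ⟨s, hs, h⟩
  | succ m ih =>
    obtain ⟨s', hs', h'⟩ := ih
    exact ⟨-s', by rw [neg_sq, hs'], (h'.iter (d m)).S⟩

lemma start (h1 : SCoord) (δ : ℝ) {v : ℝ × ℝ} (hv : v ∈ U) : Gd (ze δ) v (-1) := by
  obtain ⟨hS, -, hC, -, hD⟩ := h1 δ
  have hd : DifferentiableAt ℝ (fun v => toL (ze δ v)) v :=
    (hC.contDiffAt (isOpen_U.mem_nhds hv)).differentiableAt (by simp)
  have dfz : DifferentiableAt ℝ (fun w => (ze δ w).z) v := hd.fst
  have dfy : DifferentiableAt ℝ (fun w => (ze δ w).y) v := hd.snd.fst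
  have dfx : DifferentiableAt ℝ (fun w => (ze δ w).x) v := hd.snd.snd
  obtain ⟨-, hy, hx⟩ := hD v hv
  have hv' : |v.1| < 1 := hv
  have hpos : 0 < 1 - v.1 ^ 2 := by
    have := (sq_lt_one_iff_abs_lt_one v.1).2 hv'
    linarith
  have hr : 0 < √(1 - v.1 ^ 2) := Real.sqrt_pos.2 hpos
  -- vertical derivatives
  have key : ∀ {f : ℝ × ℝ → ℝ}, DifferentiableAt ℝ f v → ∀ {c : ℝ},
      HasDerivAt (fun t => f (v.1, t)) c v.2 → dt f v = c := by
    intro f hf c hc
    have h2 : HasDerivAt (fun t : ℝ => ((v.1, t) : ℝ × ℝ)) ((0 : ℝ), (1 : ℝ)) v.2 :=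
      (hasDerivAt_const v.2 v.1).prodMk (hasDerivAt_id v.2)
    have h3 := hf.hasFDerivAt.comp_hasDerivAt v.2 h2
    exact h3.unique hc
  have ty := key dfy hy
  have tx := key dfx hx
  have ez : (fun w : ℝ × ℝ => (ze δ w).z) = Prod.fst := rfl
  have tz : dt (fun w => (ze δ w).z) v = 0 := by
    unfold dt; rw [ez, (hasFDerivAt_fst (𝕜 := ℝ) (E := ℝ) (F := ℝ) (p := v)).fderiv]; rfl
  have zz : dz (fun w => (ze δ w).z) v = 1 := by
    unfold dz; rw [ez, (hasFDerivAt_fst (𝕜 := ℝ) (E := ℝ) (F := ℝ) (p := v)).fderiv]; rfl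
  -- the equation of the surface
  have hF : fderiv ℝ (fun w => (ze δ w).x * (ze δ w).x + (ze δ w).y * (ze δ w).y
      + (ze δ w).z * (ze δ w).z - 2 * (ze δ w).x * (ze δ w).y * (ze δ w).z) v = 0 := by
    have e : (fun w => (ze δ w).x * (ze δ w).x + (ze δ w).y * (ze δ w).y
      + (ze δ w).z * (ze δ w).z - 2 * (ze δ w).x * (ze δ w).y * (ze δ w).z) =ᶠ[𝓝 v]
        fun _ => 1 + δ ^ 2 := by
      filter_upwards [isOpen_U.mem_nhds hv] with w hw
      have := hS w hw
      unfold OnS at this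
      linear_combination this
    rw [e.fderiv_eq]
    exact (hasFDerivAt_const _ _).fderiv
  have hF2 := (((dfx.hasFDerivAt.mul dfx.hasFDerivAt).add (dfy.hasFDerivAt.mul dfy.hasFDerivAt)).add
    (dfz.hasFDerivAt.mul dfz.hasFDerivAt)).sub
      (((dfx.hasFDerivAt.const_mul 2).mul dfy.hasFDerivAt).mul dfz.hasFDerivAt)
  have hF3 := hF2.fderiv.symm.trans hF
  have hF4 := congrArg (fun T : (ℝ × ℝ) →L[ℝ] ℝ => T (1, 0)) hF3
  simp only [_root_.sub_apply, _root_.add_apply, _root_.smul_apply, smul_eq_mul,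
    _root_.zero_apply, Pi.mul_apply] at hF4
  have hF5 : gX (ze δ v) * dz (fun w => (ze δ w).x) v + gB (ze δ v) * dz (fun w => (ze δ w).y) v +
      gA (ze δ v) = 0 := by
    have : gA (ze δ v) = gA (ze δ v) * dz (fun w => (ze δ w).z) v := by rw [zz, mul_one]
    rw [this]
    simp only [gX, gA, gB, dz]
    linear_combination hF4 / 2
  refine ⟨dfz, dfy, dfx, ?_, ?_, ?_⟩
  · unfold jac
    rw [tz, zz, ty]
    field_simp
    ring
  · unfold jac
    rw [ty, tx]
    field_simp
    linear_combination hF5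
  · unfold jac
    rw [tz, zz, tx]
    field_simp
    ring

theorem tSBr (h1 : SCoord) : SBr := by
  intro δ d j k v hv
  have hv' : |v.1| < 1 := hv
  have hpos : 0 < 1 - v.1 ^ 2 := by
    have := (sq_lt_one_iff_abs_lt_one v.1).2 hv'
    linarith
  have hsq : √(1 - v.1 ^ 2) ^ 2 = 1 - v.1 ^ 2 := Real.sq_sqrt hpos.le
  obtain ⟨s, hs, hg⟩ := (start h1 δ hv).orb (by norm_num) d j
  obtain ⟨-, -, -, jX, -, jB⟩ := hg.iter k
  have hO : OnS δ (stepR^[k] (orb d (ze δ v) j)) := (((h1 δ).1 v hv).orb d j).iter k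
  have hX := hO.X2
  have hB := hO.B2
  have ey : (fun w => (stepR^[k] (orb d (ze δ w) j)).y) = Yf δ d j := by
    funext w; rw [iter_y]; rfl
  have ez : (fun w => (stepR^[k] (orb d (ze δ w) j)).z) = Tf δ d j k := rfl
  have ex : (fun w => (stepR^[k] (orb d (ze δ w) j)).x) = Tf δ d j (k + 1) := by
    funext w; rw [iter_x]; rfl
  have ey' : (stepR^[k] (orb d (ze δ v) j)).y = Yf δ d j v := congrFun ey v
  have ez' : (stepR^[k] (orb d (ze δ v) j)).z = Tf δ d j k v := rfl
  have ex' : (stepR^[k] (orb d (ze δ v) j)).x = Tf δ d j (k + 1) v := congrFun ex v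
  rw [ey, ez] at jX
  rw [ex, ez] at jB
  rw [ey', ez'] at hX
  rw [ex', ez'] at hB
  constructor
  · have e : jac (Yf δ d j) (Tf δ d j k) v = - jac (Tf δ d j k) (Yf δ d j) v := by
      unfold jac; ring
    rw [e, neg_sq, ← hX, ← hsq, ← mul_pow, jX, mul_pow, hs, one_mul]
  · have e : jac (Tf δ d j k) (Tf δ d j (k + 1)) v = - jac (Tf δ d j (k + 1)) (Tf δ d j k) v := by
      unfold jac; ring
    rw [e, neg_sq, ← hsq, ← mul_pow, jB, mul_pow, hs, one_mul, hB]
    ring

/-- the form asked for -/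
theorem tSBr' (h1 : SCoord) (_h2 : SDt) : SBr := tSBr h1

end Pool.Agent.H200.TM
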